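import Mathlib

/-!
# JR-DENS, abstract part: convergence of `∏ (1 - χ(p)/(p-1))` from dyadic bounds for `∑ χ(p)/p`
-/

set_option autoImplicit false

namespace Pool.Agent.Y781.JR

open Filter Finset Topology

/-- `∑_{P < p ≤ Q} χ(p)/p` over the odd primes -/
noncomputable def SS (χ : ℕ → ℝ) (P Q : ℕ) : ℝ :=
  ∑ p ∈ (Ioc P Q).filter (fun p : ℕ => p.Prime ∧ p ≠ 2), χ p / p

theorem SS_split (χ : ℕ → ℝ) (P Q R : ℕ) (h1 : P ≤ Q) (h2 : Q ≤ R) : SS χ P R = SS χ P Q + SS χ Q R := by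
  unfold SS
  rw [← sum_union]
  · congr 1
    ext p
    simp only [mem_union, mem_filter, mem_Ioc]
    constructor
    · rintro ⟨⟨h3, h4⟩, h5⟩
      rcases le_or_gt p Q with h | h
      · exact Or.inl ⟨⟨h3, h⟩, h5⟩
      · exact Or.inr ⟨⟨h, h4⟩, h5⟩
    · rintro (⟨⟨h3, h4⟩, h5⟩ | ⟨⟨h3, h4⟩, h5⟩)
      · exact ⟨⟨h3, by omega⟩, h5⟩
      · exact ⟨⟨by omega, h4⟩, h5⟩
  · rw [disjoint_left]
    intro p hp hp'
    rw [mem_filter, mem_Ioc] at hp hp'
    omega

/-- the bound for the tails -/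
noncomputable def FF (P : ℕ) : ℝ := 1 / (Real.log 2 * (Real.log P - Real.log 2))

theorem FF_step (P : ℕ) (hP : 3 ≤ P) : 1 / Real.log P ^ 2 + FF (2 * P) ≤ FF P := by
  have hPr : (3 : ℝ) ≤ P := by exact_mod_cast hP
  have hb : 0 < Real.log 2 := Real.log_pos (by norm_num)
  have hA : Real.log 2 < Real.log P := Real.log_lt_log (by norm_num) (by linarith)
  have h2 : Real.log ((2 * P : ℕ) : ℝ) = Real.log 2 + Real.log P := by
    push_cast
    rw [Real.log_mul (by norm_num) (by linarith)]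
  unfold FF
  rw [h2, show Real.log 2 + Real.log P - Real.log 2 = Real.log P by ring]
  set A := Real.log P with hAdef
  set b := Real.log 2 with hbdef
  have hA0 : 0 < A := hb.trans hA
  have hAb : 0 < A - b := by linarith
  rw [div_add_div _ _ (by positivity) (by positivity), div_le_div_iff₀ (by positivity) (by positivity)]
  nlinarith [mul_pos hb hA0, mul_pos (mul_pos hb hA0) hb, mul_pos hA0 hA0]

theorem FF_pos (P : ℕ) (hP : 3 ≤ P) : 0 < FF P := by
  have hPr : (3 : ℝ) ≤ P := by exact_mod_cast hP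
  have hb : 0 < Real.log 2 := Real.log_pos (by norm_num)
  have hA : Real.log 2 < Real.log P := Real.log_lt_log (by norm_num) (by linarith)
  unfold FF
  have : 0 < Real.log P - Real.log 2 := by linarith
  positivity

theorem FF_tend : Tendsto FF atTop (𝓝 0) := by
  have hb : 0 < Real.log 2 := Real.log_pos (by norm_num)
  have h1 : Tendsto (fun P : ℕ => Real.log 2 * (Real.log P - Real.log 2)) atTop atTop := by
    refine Tendsto.const_mul_atTop hb ?_
    exact tendsto_atTop_add_const_right _ _ (Real.tendsto_log_atTop.comp tendsto_natCast_atTop_atTop)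
  have := h1.inv_tendsto_atTop
  refine this.congr (fun P => ?_)
  unfold FF
  rw [one_div]
  rfl

theorem SS_bd (χ : ℕ → ℝ) (P0 : ℕ) (h : ∀ P Q : ℕ, P0 ≤ P → P ≤ Q → Q ≤ 2 * P → |SS χ P Q| ≤ 1 / Real.log P ^ 2)
    (k : ℕ) : ∀ P Q : ℕ, max P0 3 ≤ P → P ≤ Q → Q ≤ 2 ^ k * P → |SS χ P Q| ≤ FF P := by
  induction k with
  | zero =>
    intro P Q hP hPQ hQ
    rw [pow_zero, one_mul] at hQ
    have : P = Q := by omega
    subst this
    have h3 : 3 ≤ P := (le_max_right _ _).trans hP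
    unfold SS
    simp [(FF_pos P h3).le]
  | succ k ih =>
    intro P Q hP hPQ hQ
    have h3 : 3 ≤ P := (le_max_right _ _).trans hP
    have h0 : P0 ≤ P := (le_max_left _ _).trans hP
    have hs := FF_step P h3
    have hp := FF_pos (2 * P) (by omega)
    rcases le_or_gt Q (2 * P) with h' | h'
    · have := h P Q h0 hPQ h'
      linarith
    · have h4 := h P (2 * P) h0 (by omega) le_rfl
      have h5 := ih (2 * P) Q (by omega) h'.le (by
        calc Q ≤ 2 ^ (k + 1) * P := hQ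
          _ = 2 ^ k * (2 * P) := by ring)
      rw [SS_split χ P (2 * P) Q (by omega) h'.le]
      calc |SS χ P (2 * P) + SS χ (2 * P) Q| ≤ |SS χ P (2 * P)| + |SS χ (2 * P) Q| := abs_add_le _ _
        _ ≤ 1 / Real.log P ^ 2 + FF (2 * P) := add_le_add h4 h5
        _ ≤ FF P := hs

/-- the partial sums -/
noncomputable def TT (χ : ℕ → ℝ) (N : ℕ) : ℝ :=
  ∑ p ∈ (range N).filter (fun p : ℕ => p.Prime ∧ p ≠ 2), χ p / p

theorem TT_diff (χ : ℕ → ℝ) (P Q : ℕ) (h : P ≤ Q) : TT χ (Q + 1) - TT χ (P + 1) = SS χ P Q := by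
  unfold TT SS
  rw [sub_eq_iff_eq_add, ← sum_union]
  · congr 1
    ext p
    simp only [mem_union, mem_filter, mem_Ioc, mem_range]
    constructor
    · rintro ⟨h3, h5⟩
      rcases le_or_gt p P with h' | h'
      · exact Or.inr ⟨by omega, h5⟩
      · exact Or.inl ⟨⟨h', by omega⟩, h5⟩
    · rintro (⟨⟨h3, h4⟩, h5⟩ | ⟨h3, h5⟩)
      · exact ⟨by omega, h5⟩
      · exact ⟨by omega, h5⟩
  · rw [disjoint_left]
    intro p hp hp'
    rw [mem_filter, mem_Ioc] at hp
    rw [mem_filter, mem_range] at hp'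
    omega

theorem TT_conv (χ : ℕ → ℝ) (P0 : ℕ) (h : ∀ P Q : ℕ, P0 ≤ P → P ≤ Q → Q ≤ 2 * P → |SS χ P Q| ≤ 1 / Real.log P ^ 2) :
    ∃ τ : ℝ, Tendsto (TT χ) atTop (𝓝 τ) := by
  apply cauchySeq_tendsto_of_complete
  rw [Metric.cauchySeq_iff']
  intro ε hε
  obtain ⟨P1, hP1⟩ := eventually_atTop.1 (FF_tend.eventually (gt_mem_nhds hε))
  set P := max (max P0 3) P1 with hP
  have hP3 : max P0 3 ≤ P := le_max_left _ _
  refine ⟨P + 1, fun n hn => ?_⟩
  obtain ⟨Q, rfl⟩ : ∃ Q, n = Q + 1 := ⟨n - 1, by omega⟩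
  rw [Real.dist_eq, TT_diff χ P Q (by omega)]
  have h3 : 3 ≤ P := (le_max_right _ _).trans hP3
  refine (SS_bd χ P0 h Q P Q hP3 (by omega) ?_).trans_lt (hP1 P (le_max_right _ _))
  calc Q ≤ 2 ^ Q := Nat.lt_two_pow_self.le
    _ ≤ 2 ^ Q * P := Nat.le_mul_of_pos_right _ (by omega)

/-- the logarithm of the factor -/
theorem log_fac (x : ℝ) (n : ℕ) (hn : 3 ≤ n) (hx : |x| ≤ 1) :
    0 < 1 - x / ((n : ℝ) - 1) ∧ |Real.log (1 - x / ((n : ℝ) - 1)) + x / n| ≤ 10 / (n : ℝ) ^ 2 := by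
  have hnr : (3 : ℝ) ≤ n := by exact_mod_cast hn
  have hn1 : 0 < (n : ℝ) - 1 := by linarith
  have ht : |x / ((n : ℝ) - 1)| ≤ 1 / 2 := by
    rw [abs_div, abs_of_pos hn1, div_le_iff₀ hn1]
    linarith
  have ht' : |x / ((n : ℝ) - 1)| ≤ 1 / ((n : ℝ) - 1) := by
    rw [abs_div, abs_of_pos hn1]
    exact div_le_div_of_nonneg_right hx hn1.le
  set t := x / ((n : ℝ) - 1) with htdef
  have hpos : 0 < 1 - t := by
    have := (abs_le.1 ht).2
    linarith
  refine ⟨hpos, ?_⟩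
  have h1 : |Real.log (1 - t) + t| ≤ 2 * t ^ 2 := by
    have hu := Real.log_le_sub_one_of_pos hpos
    have hl := Real.one_sub_inv_le_log_of_pos hpos
    rw [abs_le]
    constructor
    · have h2 : -(2 * t ^ 2) - t ≤ Real.log (1 - t) := by
        refine le_trans ?_ hl
        rw [show 1 - (1 - t)⁻¹ = -(t / (1 - t)) by field_simp; ring]
        rw [show -(2 * t ^ 2) - t = -(2 * t ^ 2 + t) by ring, neg_le_neg_iff, div_le_iff₀ hpos]
        nlinarith [(abs_le.1 ht).1, (abs_le.1 ht).2, sq_nonneg t,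
          mul_nonneg (sq_nonneg t) (show 0 ≤ 1 - 2 * t by linarith [(abs_le.1 ht).2])]
      linarith
    · nlinarith [sq_nonneg t]
  have h2 : |x / n - t| ≤ 1 / ((n : ℝ) * (n - 1)) := by
    have : x / n - t = -(x / (n * (n - 1))) := by
      rw [htdef]; field_simp; ring
    rw [this, abs_neg, abs_div, abs_of_pos (show 0 < (n : ℝ) * (n - 1) by positivity)]
    exact div_le_div_of_nonneg_right hx (by positivity)
  have h3 : t ^ 2 ≤ 1 / ((n : ℝ) - 1) ^ 2 := by
    rw [← sq_abs t, one_div, ← inv_pow, ← one_div]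
    exact pow_le_pow_left₀ (abs_nonneg _) ht' 2
  have h4 : 1 / ((n : ℝ) - 1) ^ 2 ≤ 4 / (n : ℝ) ^ 2 := by
    rw [div_le_div_iff₀ (by positivity) (by positivity)]
    nlinarith
  have h5 : 1 / ((n : ℝ) * (n - 1)) ≤ 2 / (n : ℝ) ^ 2 := by
    rw [div_le_div_iff₀ (by positivity) (by positivity)]
    nlinarith
  calc |Real.log (1 - t) + x / n| = |(Real.log (1 - t) + t) + (x / n - t)| := by congr 1; ring
    _ ≤ |Real.log (1 - t) + t| + |x / n - t| := abs_add_le _ _
    _ ≤ 2 * (4 / (n : ℝ) ^ 2) + 2 / (n : ℝ) ^ 2 := by linarith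
    _ = _ := by ring

/-- convergence of the product -/
theorem prod_conv (χ : ℕ → ℝ) (hχ : ∀ n, |χ n| ≤ 1) (P0 : ℕ)
    (h : ∀ P Q : ℕ, P0 ≤ P → P ≤ Q → Q ≤ 2 * P → |SS χ P Q| ≤ 1 / Real.log P ^ 2) :
    ∃ C : ℝ, 0 < C ∧ Tendsto (fun N : ℕ => ∏ p ∈ (range N).filter (fun p : ℕ => p.Prime ∧ p ≠ 2),
      (1 - χ p / ((p : ℝ) - 1))) atTop (𝓝 C) := by
  classical
  obtain ⟨τ, hτ⟩ := TT_conv χ P0 h
  set e : ℕ → ℝ := fun n => if n.Prime ∧ n ≠ 2 then Real.log (1 - χ n / ((n : ℝ) - 1)) + χ n / n else 0 with he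
  have h3 : ∀ n : ℕ, n.Prime ∧ n ≠ 2 → 3 ≤ n := by
    intro n hn
    have := hn.1.two_le
    omega
  have hes : Summable e := by
    have h0 : Summable (fun n : ℕ => 10 / (n : ℝ) ^ 2) := by
      have := (Real.summable_one_div_nat_pow (p := 2)).2 (by norm_num)
      exact (this.mul_left 10).congr (fun n => by ring)
    refine Summable.of_norm_bounded h0 (fun n => ?_)
    rw [he]
    simp only
    split_ifs with hn
    · rw [Real.norm_eq_abs]
      exact (log_fac (χ n) n (h3 n hn) (hχ n)).2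
    · rw [norm_zero]; positivity
  have he2 := hes.hasSum.tendsto_sum_nat
  refine ⟨Real.exp ((∑' n, e n) - τ), Real.exp_pos _, ?_⟩
  have h5 := (Real.continuous_exp.tendsto _).comp (he2.sub hτ)
  refine h5.congr (fun N => ?_)
  simp only [Function.comp]
  have h6 : ∑ n ∈ range N, e n = ∑ p ∈ (range N).filter (fun p : ℕ => p.Prime ∧ p ≠ 2),
      (Real.log (1 - χ p / ((p : ℝ) - 1)) + χ p / p) := by
    rw [he, sum_filter]
  rw [h6, sum_add_distrib]
  unfold TT
  rw [add_sub_cancel_right, Real.exp_sum]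
  refine prod_congr rfl (fun p hp => ?_)
  rw [Real.exp_log (log_fac (χ p) p (h3 p (mem_filter.1 hp).2) (hχ p)).1]

/-- from the natural numbers to the reals -/
theorem real_version (G : ℕ → ℝ) (hG0 : ∀ N, 0 ≤ G N) (hG1 : ∀ N, G N ≤ 1) (L : ℝ)
    (hG : Tendsto (fun N : ℕ => G N * Real.log N) atTop (𝓝 L)) :
    Tendsto (fun z : ℝ => G (⌈z⌉₊ - 1) * Real.log z) atTop (𝓝 L) := by
  have hM : Tendsto (fun z : ℝ => ⌈z⌉₊ - 1) atTop atTop := by
    refine tendsto_atTop.2 fun b => ?_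
    filter_upwards [tendsto_nat_ceil_atTop.eventually_ge_atTop (b + 1)] with v hv
    omega
  have h1 := hG.comp hM
  have h2 : Tendsto (fun z : ℝ => G (⌈z⌉₊ - 1) * (Real.log z - Real.log ((⌈z⌉₊ - 1 : ℕ) : ℝ))) atTop (𝓝 0) := by
    have h3 : Tendsto (fun z : ℝ => 1 / (((⌈z⌉₊ - 1 : ℕ) : ℝ))) atTop (𝓝 0) :=
      tendsto_one_div_atTop_nhds_zero_nat.comp hM
    refine squeeze_zero_norm' ?_ h3
    filter_upwards [eventually_gt_atTop (2 : ℝ)] with z hz
    have hc1 : 2 < ⌈z⌉₊ := Nat.lt_ceil.2 (by exact_mod_cast hz)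
    set M := ⌈z⌉₊ - 1 with hMdef
    have hM1 : (2 : ℝ) ≤ M := by exact_mod_cast (show 2 ≤ M by omega)
    have hMz : (M : ℝ) < z := Nat.lt_ceil.1 (by omega)
    have hzM : z ≤ M + 1 := by
      have := Nat.le_ceil z
      have h' : ((⌈z⌉₊ : ℕ) : ℝ) = M + 1 := by
        have : ⌈z⌉₊ = M + 1 := by omega
        rw [this]; push_cast; ring
      linarith
    have hl : 0 ≤ Real.log z - Real.log M := by
      have := Real.log_le_log (by linarith) hMz.le
      linarith
    have hu : Real.log z - Real.log M ≤ 1 / M := by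
      rw [← Real.log_div (by linarith) (by linarith)]
      have hz0 : 0 < z / M := by positivity
      have := Real.log_le_sub_one_of_pos hz0
      refine this.trans ?_
      rw [div_sub_one (by linarith)]
      exact div_le_div_of_nonneg_right (by linarith) (by linarith)
    rw [Real.norm_eq_abs, abs_of_nonneg (mul_nonneg (hG0 M) hl)]
    calc G M * (Real.log z - Real.log M) ≤ 1 * (1 / M) := mul_le_mul (hG1 M) hu hl zero_le_one
      _ = 1 / M := one_mul _
  have h4 := h1.add h2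
  rw [add_zero] at h4
  refine h4.congr (fun z => ?_)
  simp only [Function.comp]
  ring

end Pool.Agent.Y781.JR
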