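import Pool.Agent.Y882.JR.Stm
import Pool.Agent.H305R2.MertensE
import Pool.Agent.Y781.JR.Core

/-!
# JR-DENS: the sieve density of `n ^ 2 + a`
-/

set_option autoImplicit false

namespace Pool.Agent.Y781.JR

open Filter Finset Topology
open Pool.Agent.W23.DC
open Pool.Agent.Y882.PX
open Pool.Agent.Y882.JR
open Pool.Agent.Y882.SI

theorem rho_eq (a : ℤ) (p : ℕ) :
    ((Finset.range p).filter (fun m : ℕ => (p : ℤ) ∣ (m : ℤ) ^ 2 + a)).card = ro (QF a) 0 p := by
  rw [ro_eq]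
  congr 1
  apply filter_congr
  intro m _
  rw [QF_eval, add_zero]

/-- the products of Mertens -/
noncomputable def GG (N : ℕ) : ℝ := ∏ p ∈ (range N).filter Nat.Prime, (1 - 1 / (p : ℝ))

/-- the other factor -/
noncomputable def RR (a : ℤ) (N : ℕ) : ℝ :=
  ∏ p ∈ (range N).filter (fun p : ℕ => p.Prime ∧ p ≠ 2), (1 - (jacobiSym (-a) p : ℝ) / ((p : ℝ) - 1))

theorem fac_pos (p : ℕ) (hp : p.Prime) : 0 < 1 - 1 / (p : ℝ) ∧ 1 - 1 / (p : ℝ) ≤ 1 := by
  have h2 : (2 : ℝ) ≤ p := by exact_mod_cast hp.two_le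
  constructor
  · rw [sub_pos, div_lt_one (by linarith)]; linarith
  · have : 0 ≤ 1 / (p : ℝ) := by positivity
    linarith

theorem GG_pos (N : ℕ) : 0 < GG N := by
  unfold GG
  exact prod_pos (fun p hp => (fac_pos p (mem_filter.1 hp).2).1)

theorem GG_le (N : ℕ) : GG N ≤ 1 := by
  unfold GG
  exact prod_le_one (fun p hp => (fac_pos p (mem_filter.1 hp).2).1.le)
    (fun p hp => (fac_pos p (mem_filter.1 hp).2).2)

theorem dens_eq (a : ℤ) (z : ℝ) : Pool.Agent.Y882.JR.dens a z = GG ⌈z⌉₊ * RR a ⌈z⌉₊ := by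
  unfold Pool.Agent.Y882.JR.dens GG RR
  rw [← filter_filter, prod_filter (s := (range ⌈z⌉₊).filter Nat.Prime), ← prod_mul_distrib]
  refine prod_congr rfl (fun p hp => ?_)
  have hpp := (mem_filter.1 hp).2
  have h2 : (2 : ℝ) ≤ p := by exact_mod_cast hpp.two_le
  rw [rho_eq]
  split_ifs with h
  · have h3 := ro_quad a p hpp h
    have h4 : (ro (QF a) 0 p : ℝ) = 1 + (jacobiSym (-a) p : ℝ) := by exact_mod_cast h3
    rw [h4]
    have h5 : (p : ℝ) - 1 ≠ 0 := by linarith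
    have h6 : (p : ℝ) ≠ 0 := by linarith
    field_simp
    ring
  · have hp2 : p = 2 := by
      by_contra h'
      exact h h'
    subst hp2
    rw [ro_quad_two]
    norm_num

theorem RR_conv (a : ℤ) (ha : ¬ IsSquare (-a)) : ∃ C : ℝ, 0 < C ∧ Tendsto (RR a) atTop (𝓝 C) := by
  obtain ⟨P0, -, hP0⟩ := dyad (-a) ha
  refine prod_conv (fun n => (jacobiSym (-a) n : ℝ)) (fun n => ?_) P0 (fun P Q hP hPQ hQ => ?_)
  · rcases jacobiSym.trichotomy (-a) n with h | h | h <;> rw [h] <;> norm_num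
  · have := hP0 1 P Q hP hPQ (by rw [pow_one]; exact hQ)
    rw [Nat.cast_one] at this
    exact this

theorem GG_mertens : Tendsto (fun N : ℕ => GG (N + 1) * Real.log N) atTop
    (𝓝 (Real.exp (-Real.eulerMascheroniConstant))) := by
  have h := (Pool.Agent.H305R2.mertens_three).inv₀ (Real.exp_pos _).ne'
  rw [← Real.exp_neg] at h
  refine h.congr (fun N => ?_)
  rw [inv_div, div_eq_mul_inv, mul_comm]
  congr 1
  rw [← prod_inv_distrib]
  unfold GG
  have hs : (Icc 1 N).filter Nat.Prime = (range (N + 1)).filter Nat.Prime := by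
    ext p
    rw [mem_filter, mem_filter, mem_Icc, mem_range]
    constructor
    · rintro ⟨⟨_, h2⟩, h3⟩
      exact ⟨by omega, h3⟩
    · rintro ⟨h2, h3⟩
      exact ⟨⟨h3.one_le, by omega⟩, h3⟩
  rw [hs]
  refine prod_congr rfl (fun p _ => ?_)
  rw [inv_inv, one_div]

theorem t : S_DENS := by
  intro a ha
  obtain ⟨C, hC, hR⟩ := RR_conv a ha
  refine ⟨C, hC, ?_, ?_⟩
  · refine hR.congr (fun N => ?_)
    rw [dens_eq, Nat.ceil_natCast]
    change RR a N = GG N * RR a N / GG N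
    rw [mul_div_cancel_left₀ _ (GG_pos N).ne']
  · have h1 := real_version (fun N => GG (N + 1)) (fun N => (GG_pos _).le) (fun N => GG_le _) _ GG_mertens
    have h2 := (hR.comp (tendsto_nat_ceil_atTop (α := ℝ))).mul h1
    refine h2.congr' ?_
    filter_upwards [eventually_gt_atTop (0 : ℝ)] with z hz
    have hc : 0 < ⌈z⌉₊ := Nat.ceil_pos.2 hz
    simp only [Function.comp]
    rw [dens_eq, Nat.sub_add_cancel hc]
    ring

end Pool.Agent.Y781.JR
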